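import Pool.Agent.W92.ET.Base

/-! ET-COUNT (helper168, for helper92): counting representations -/

set_option autoImplicit false

namespace Pool.Agent.W168.ET

open Pool.Agent.W92.ET

theorem mem_tr (A : Set ℕ) (N a : ℕ) : a ∈ tr A N ↔ (1 ≤ a ∧ a ≤ N) ∧ a ∈ A := by
  classical
  unfold tr
  rw [Finset.mem_filter, Finset.mem_Icc]

open Classical in
/-- the set of representations -/
noncomputable def UU (A : Set ℕ) (n : ℕ) : Finset (ℕ × ℕ) :=
  (Finset.HasAntidiagonal.antidiagonal n).filter (fun p => p.1 ∈ A ∧ p.2 ∈ A ∧ p.1 ≤ p.2)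

theorem mem_UU (A : Set ℕ) (n : ℕ) (p : ℕ × ℕ) :
    p ∈ UU A n ↔ p.1 + p.2 = n ∧ p.1 ∈ A ∧ p.2 ∈ A ∧ p.1 ≤ p.2 := by
  classical
  unfold UU
  rw [Finset.mem_filter, Finset.HasAntidiagonal.mem_antidiagonal]

theorem uc_eq (A : Set ℕ) (n : ℕ) : uc A n = (UU A n).card := by
  unfold uc
  rw [← Set.ncard_coe_finset]
  congr 1
  ext p
  rw [Finset.mem_coe, mem_UU]
  constructor
  · rintro ⟨h1, h2, h3, h4⟩
    exact ⟨h4, h1, h2, h3⟩
  · rintro ⟨h4, h1, h2, h3⟩
    exact ⟨h1, h2, h3, h4⟩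

theorem mem_rs (T : Finset ℕ) (n : ℕ) (p : ℕ × ℕ) :
    p ∈ (Pr T).filter (fun x => x.1 + x.2 = n) ↔ (p.1 ∈ T ∧ p.2 ∈ T) ∧ p.1 < p.2 ∧ p.1 + p.2 = n := by
  unfold Pr
  rw [Finset.mem_filter, Finset.mem_filter, Finset.mem_product]
  tauto

theorem rs_le_uc (A : Set ℕ) (N n : ℕ) : rs (tr A N) n ≤ uc A n := by
  rw [uc_eq]
  unfold rs
  apply Finset.card_le_card
  intro p hp
  rw [mem_rs] at hp
  rw [mem_UU]
  obtain ⟨⟨h1, h2⟩, h3, h4⟩ := hp
  rw [mem_tr] at h1 h2
  exact ⟨h4, h1.2, h2.2, h3.le⟩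

theorem rs_le (T : Finset ℕ) (n : ℕ) : rs T n ≤ n + 1 := by
  unfold rs
  rw [← Finset.Nat.card_antidiagonal n]
  apply Finset.card_le_card
  intro p hp
  rw [mem_rs] at hp
  rw [Finset.HasAntidiagonal.mem_antidiagonal]
  exact hp.2.2

open Classical in
theorem uc_split (A : Set ℕ) (h0 : 0 ∉ A) (N n : ℕ) (hn : 1 ≤ n) (hN : n ≤ N) :
    uc A n = rs (tr A N) n + if (∃ a ∈ tr A N, 2 * a = n) then 1 else 0 := by
  rw [uc_eq, ← Finset.card_filter_add_card_filter_not (s := UU A n) (fun p => p.1 < p.2)]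
  congr 1
  · unfold rs
    congr 1
    ext p
    rw [Finset.mem_filter, mem_UU, mem_rs, mem_tr, mem_tr]
    constructor
    · rintro ⟨⟨h1, h2, h3, h4⟩, h5⟩
      have hp1 : p.1 ≠ 0 := fun h => h0 (h ▸ h2)
      have hp2 : p.2 ≠ 0 := fun h => h0 (h ▸ h3)
      exact ⟨⟨⟨⟨by omega, by omega⟩, h2⟩, ⟨by omega, by omega⟩, h3⟩, h5, h1⟩
    · rintro ⟨⟨⟨h1, h2⟩, h3, h4⟩, h5, h6⟩
      exact ⟨⟨h6, h2, h4, h5.le⟩, h5⟩
  · split_ifs with h
    · obtain ⟨a, ha, h2a⟩ := h
      rw [mem_tr] at ha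
      rw [Finset.card_eq_one]
      refine ⟨(a, a), ?_⟩
      ext p
      rw [Finset.mem_filter, mem_UU, Finset.mem_singleton]
      constructor
      · rintro ⟨⟨h1, h2, h3, h4⟩, h5⟩
        ext
        · show p.1 = a
          omega
        · show p.2 = a
          omega
      · rintro rfl
        exact ⟨⟨by show a + a = n; omega, ha.2, ha.2, le_refl _⟩, lt_irrefl _⟩
    · rw [Finset.card_eq_zero, Finset.filter_eq_empty_iff]
      intro p hp hlt
      rw [mem_UU] at hp
      obtain ⟨h1, h2, h3, h4⟩ := hp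
      apply h
      refine ⟨p.1, ?_, by omega⟩
      rw [mem_tr]
      exact ⟨⟨by omega, by omega⟩, h2⟩

theorem RR_eq (A : Set ℕ) (N : ℕ) :
    RR (tr A N) = ∑ n ∈ Finset.Icc 1 (2 * N), (rs (tr A N) n : ℝ) / n := by
  unfold RR
  rw [← Finset.sum_fiberwise_of_maps_to (s := Pr (tr A N)) (t := Finset.Icc 1 (2 * N))
    (g := fun x => x.1 + x.2)]
  · apply Finset.sum_congr rfl
    intro n hn
    have h1 : ∀ x ∈ (Pr (tr A N)).filter (fun x => x.1 + x.2 = n),
        1 / ((x.1 : ℝ) + x.2) = 1 / (n : ℝ) := by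
      intro x hx
      rw [mem_rs] at hx
      rw [← hx.2.2]
      push_cast
      rfl
    rw [Finset.sum_congr rfl h1, Finset.sum_const, nsmul_eq_mul]
    unfold rs
    rw [mul_one_div]
  · intro x hx
    unfold Pr at hx
    rw [Finset.mem_filter, Finset.mem_product, mem_tr, mem_tr] at hx
    rw [Finset.mem_Icc]
    obtain ⟨⟨⟨h1, h2⟩, h3, h4⟩, h5⟩ := hx
    constructor
    · show 1 ≤ x.1 + x.2
      omega
    · show x.1 + x.2 ≤ 2 * N
      omega

theorem sum_small (N n₀ : ℕ) (K : ℝ) (hK : 0 ≤ K) :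
    ∑ n ∈ Finset.Icc 1 (2 * N), (if n < n₀ then K else 0) ≤ n₀ * K := by
  rw [← Finset.sum_filter, Finset.sum_const, nsmul_eq_mul]
  apply mul_le_mul_of_nonneg_right _ hK
  have h : ((Finset.Icc 1 (2 * N)).filter (fun n => n < n₀)).card ≤ (Finset.range n₀).card := by
    apply Finset.card_le_card
    intro n hn
    rw [Finset.mem_filter] at hn
    exact Finset.mem_range.2 hn.2
  rw [Finset.card_range] at h
  exact_mod_cast h

open Classical in
theorem sum_delta (A : Set ℕ) (N : ℕ) (C' : ℝ) (hC : ∑ a ∈ tr A N, 1 / (a : ℝ) ≤ C') :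
    ∑ n ∈ Finset.Icc 1 (2 * N), (if (∃ a ∈ tr A N, 2 * a = n) then 1 / (n : ℝ) else 0) ≤ C' := by
  rw [← Finset.sum_filter]
  have h1 : (Finset.Icc 1 (2 * N)).filter (fun n => ∃ a ∈ tr A N, 2 * a = n) ⊆
      (tr A N).image (fun a => 2 * a) := by
    intro n hn
    rw [Finset.mem_filter] at hn
    rw [Finset.mem_image]
    exact hn.2
  refine le_trans (Finset.sum_le_sum_of_subset_of_nonneg h1 (fun n _ _ => by positivity)) ?_
  rw [Finset.sum_image (fun a _ b _ h => by
    have : 2 * a = 2 * b := h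
    omega)]
  refine le_trans (Finset.sum_le_sum ?_) hC
  intro a ha
  rw [mem_tr] at ha
  have ha0 : (1 : ℝ) ≤ a := by exact_mod_cast ha.1.1
  push_cast
  apply one_div_le_one_div_of_le (by linarith)
  linarith

theorem sum_chi (N : ℕ) (hN : 1 ≤ N) :
    Real.log N ≤ ∑ n ∈ Finset.Icc 1 (2 * N), (if n ≤ N then 1 / (n : ℝ) else 0) := by
  rw [← Finset.sum_filter]
  have h1 : (Finset.Icc 1 (2 * N)).filter (fun n => n ≤ N) = Finset.Icc 1 N := by
    ext n
    rw [Finset.mem_filter, Finset.mem_Icc, Finset.mem_Icc]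
    omega
  rw [h1]
  have h2 := log_add_one_le_harmonic N
  rw [harmonic_eq_sum_Icc] at h2
  push_cast at h2
  have h3 : Real.log N ≤ Real.log ((N : ℝ) + 1) := by
    apply Real.log_le_log
    · exact_mod_cast hN
    · linarith
  refine le_trans (le_trans h3 h2) (le_of_eq ?_)
  apply Finset.sum_congr rfl
  intro n _
  rw [one_div]

theorem count : S_count := by
  classical
  intro A n₀ h0 huc C' hC'
  obtain ⟨K, hK⟩ : ∃ K : ℝ, K = ((n₀ : ℝ) + 1) ^ 2 + 3 := ⟨_, rfl⟩
  have hK0 : 0 ≤ K := by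
    rw [hK]
    positivity
  have hC0 : 0 ≤ C' := by
    have h := hC' 0
    refine le_trans ?_ h
    apply Finset.sum_nonneg
    intro a _
    positivity
  refine ⟨n₀ * K + 3 * C', fun N hN => ?_⟩
  obtain ⟨r, hr⟩ : ∃ r : ℕ → ℕ, r = fun n => rs (tr A N) n := ⟨_, rfl⟩
  have hRR := RR_eq A N
  have hsm := sum_small N n₀ K hK0
  have hde := sum_delta A N C' (hC' N)
  have hch := sum_chi N hN
  have hterm : ∀ n ∈ Finset.Icc 1 (2 * N), 1 / (n : ℝ) * ((rs (tr A N) n : ℝ) * ((rs (tr A N) n : ℝ) - 1)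
      + if (∃ a ∈ tr A N, 2 * a = n) then (rs (tr A N) n : ℝ) else 0) ≤
      3 * ((rs (tr A N) n : ℝ) / n) - 3 * (if n ≤ N then 1 / (n : ℝ) else 0) +
      3 * (if (∃ a ∈ tr A N, 2 * a = n) then 1 / (n : ℝ) else 0) + (if n < n₀ then K else 0) := by
    intro n hn
    rw [Finset.mem_Icc] at hn
    have hn1 : (1 : ℝ) ≤ n := by exact_mod_cast hn.1
    have hn0 : (0 : ℝ) < n := by linarith
    have hinv : 0 < 1 / (n : ℝ) := by positivity
    have hinv1 : 1 / (n : ℝ) ≤ 1 := by
      rw [div_le_one hn0]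
      exact hn1
    obtain ⟨R, hR⟩ : ∃ R : ℝ, R = (rs (tr A N) n : ℝ) := ⟨_, rfl⟩
    have hR0 : 0 ≤ R := by
      rw [hR]
      positivity
    rw [← hR]
    by_cases hlt : n < n₀
    · rw [if_pos hlt]
      have hRn : R ≤ n₀ := by
        have h1 := rs_le (tr A N) n
        rw [hR]
        have h2 : rs (tr A N) n ≤ n₀ := by omega
        exact_mod_cast h2
      have h3 : R * (R - 1) + (if (∃ a ∈ tr A N, 2 * a = n) then R else 0) ≤ R ^ 2 := by
        split_ifs <;> nlinarith
      have h4 : 1 / (n : ℝ) * (R * (R - 1) + (if (∃ a ∈ tr A N, 2 * a = n) then R else 0)) ≤ R ^ 2 := by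
        calc 1 / (n : ℝ) * (R * (R - 1) + (if (∃ a ∈ tr A N, 2 * a = n) then R else 0)) ≤
            1 / (n : ℝ) * R ^ 2 := mul_le_mul_of_nonneg_left h3 hinv.le
          _ ≤ 1 * R ^ 2 := mul_le_mul_of_nonneg_right hinv1 (sq_nonneg _)
          _ = R ^ 2 := one_mul _
      have h5 : R ^ 2 ≤ ((n₀ : ℝ) + 1) ^ 2 := by
        apply pow_le_pow_left₀ hR0
        linarith
      have h6 : (if n ≤ N then 1 / (n : ℝ) else 0) ≤ 1 := by
        split_ifs
        · exact hinv1
        · norm_num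
      have h7 : 0 ≤ (if (∃ a ∈ tr A N, 2 * a = n) then 1 / (n : ℝ) else 0) := by
        split_ifs
        · exact hinv.le
        · exact le_refl _
      have h8 : 0 ≤ R / n := by positivity
      rw [hK]
      linarith
    · rw [if_neg hlt, add_zero]
      have huc' := huc n (not_lt.1 hlt)
      have hR3 : R ≤ 3 := by
        have h1 := rs_le_uc A N n
        rw [hR]
        have h2 : rs (tr A N) n ≤ 3 := le_trans h1 huc'.2
        exact_mod_cast h2
      by_cases hnN : n ≤ N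
      · rw [if_pos hnN]
        have hsp := uc_split A h0 N n hn.1 hnN
        have hkey : R * (R - 1) + (if (∃ a ∈ tr A N, 2 * a = n) then R else 0) ≤
            3 * R - 3 + 3 * (if (∃ a ∈ tr A N, 2 * a = n) then (1 : ℝ) else 0) := by
          split_ifs with hδ
          · nlinarith
          · rw [if_neg hδ, add_zero] at hsp
            have h1 : 1 ≤ rs (tr A N) n := by omega
            have hR1 : 1 ≤ R := by
              rw [hR]
              exact_mod_cast h1
            nlinarith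
        have h9 := mul_le_mul_of_nonneg_left hkey hinv.le
        refine le_trans h9 (le_of_eq ?_)
        split_ifs
        · field_simp
        · rw [mul_zero, add_zero, add_zero]
          field_simp
      · rw [if_neg hnN]
        have h7 : 0 ≤ (if (∃ a ∈ tr A N, 2 * a = n) then 1 / (n : ℝ) else 0) := by
          split_ifs
          · exact hinv.le
          · exact le_refl _
        have h3 : R * (R - 1) + (if (∃ a ∈ tr A N, 2 * a = n) then R else 0) ≤ 3 * R := by
          split_ifs <;> nlinarith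
        have h9 := mul_le_mul_of_nonneg_left h3 hinv.le
        have h10 : 1 / (n : ℝ) * (3 * R) = 3 * (R / n) := by
          field_simp
        rw [h10] at h9
        linarith
  have hterm2 : ∀ n ∈ Finset.Icc 1 (2 * N), (if n ≤ N then 1 / (n : ℝ) else 0) -
      (if (∃ a ∈ tr A N, 2 * a = n) then 1 / (n : ℝ) else 0) - (if n < n₀ then K else 0) ≤
      (rs (tr A N) n : ℝ) / n := by
    intro n hn
    rw [Finset.mem_Icc] at hn
    have hn1 : (1 : ℝ) ≤ n := by exact_mod_cast hn.1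
    have hn0 : (0 : ℝ) < n := by linarith
    have hinv : 0 < 1 / (n : ℝ) := by positivity
    have hinv1 : 1 / (n : ℝ) ≤ 1 := by
      rw [div_le_one hn0]
      exact hn1
    have h8 : 0 ≤ (rs (tr A N) n : ℝ) / n := by positivity
    have h7 : 0 ≤ (if (∃ a ∈ tr A N, 2 * a = n) then 1 / (n : ℝ) else 0) := by
      split_ifs
      · exact hinv.le
      · exact le_refl _
    by_cases hlt : n < n₀
    · rw [if_pos hlt]
      have h6 : (if n ≤ N then 1 / (n : ℝ) else 0) ≤ 1 := by
        split_ifs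
        · exact hinv1
        · norm_num
      have h9 : (1 : ℝ) ≤ K := by
        rw [hK]
        nlinarith [sq_nonneg ((n₀ : ℝ) + 1)]
      linarith
    · rw [if_neg hlt, sub_zero]
      by_cases hnN : n ≤ N
      · rw [if_pos hnN]
        have hsp := uc_split A h0 N n hn.1 hnN
        have huc' := huc n (not_lt.1 hlt)
        split_ifs with hδ
        · linarith
        · rw [if_neg hδ, add_zero] at hsp
          have h1 : 1 ≤ rs (tr A N) n := by omega
          have hR1 : (1 : ℝ) ≤ (rs (tr A N) n : ℝ) := by exact_mod_cast h1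
          rw [sub_zero]
          exact div_le_div_of_nonneg_right hR1 hn0.le
      · rw [if_neg hnN]
        linarith
  constructor
  · refine le_trans (Finset.sum_le_sum hterm) ?_
    rw [Finset.sum_add_distrib, Finset.sum_add_distrib, Finset.sum_sub_distrib, ← Finset.mul_sum,
      ← Finset.mul_sum, ← Finset.mul_sum, ← hRR]
    linarith
  · have h1 := Finset.sum_le_sum hterm2
    rw [Finset.sum_sub_distrib, Finset.sum_sub_distrib, ← hRR] at h1
    linarith

end Pool.Agent.W168.ET
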